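import Pool.Agent.Lib.MP_490b4c_nt.HalfMain

/-!
For many prime bases the almost sure exponent of the discrepancy of Halton-Niederreiter sequences
is exactly `-1 / 2`.
-/

namespace Pool.Agent.Results.MP_490b4c_nt.ExactExponent

open MeasureTheory Filter Pool.Agent.Lib.MP_490b4c_nt

theorem result (l : ℕ) (d q : Fin l → ℕ) (hd : ∀ i, 1 ≤ d i) [∀ i, Fact (q i).Prime]
    (hq : Function.Injective q)
    (h : (∃ s : Finset (Fin l), s.Nonempty ∧
        ∀ i ∈ s, 4096 ≤ q i ∧ 33 ^ 3 * q i ^ 2 ≤ s.card ^ 3) ∨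
      ∀ p : ℕ, p.Prime → p ≤ 2 ^ 30 → p ∈ Set.range q) :
    ∀ᵐ C ∂prob d q, ∀ ε : ℝ, 0 < ε →
      (∀ᶠ N : ℕ in atTop, disc (pt C) N ≤ (N : ℝ) ^ (-(1 / 2) + ε)) ∧
      (∃ᶠ N : ℕ in atTop, (N : ℝ) ^ (-(1 / 2) - ε) ≤ disc (pt C) N) ∧
      ∀ᶠ M : ℕ in atTop, ∃ N ≤ M, (M : ℝ) ^ (1 / 2 - ε) ≤ N * disc (pt C) N := by
  obtain ⟨s, hs, h1⟩ := h.elim id fun h => Half.of_all_primes h
  have hl : 1 ≤ l := hs.choose.pos
  obtain ⟨c₀, h₀⟩ := Two.mean_bound (q := q)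
  filter_upwards [Two.upper (q := q) hl hd, Two.lower (q := q) hl hd, Two.lower' (q := q) hl hd]
    with C ⟨c, h2⟩ ⟨c₁, hc₁, h3⟩ ⟨c₂, hc₂, h4⟩ ε hε
  obtain ⟨c₃, hc₃, h5⟩ := Half.le_mean hs hq.injOn h1 (half_pos hε)
  refine ⟨?_, (h3.and_eventually ((Half.ev_le_div hc₃ hc₁ hε l h5).and
    (eventually_ge_atTop 1))).mono fun N ⟨h6, h7, hN⟩ => ?_, ?_⟩
  · filter_upwards [h2, Half.ev_log_le (|c| * |c₀|) (Fintype.card (Coord d) + 4) hε,
      eventually_ge_atTop 2] with N h6 h7 hN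
    have hN' : (1 : ℝ) ≤ N := by exact_mod_cast (by omega : 1 ≤ N)
    have l0 := Real.log_natCast_nonneg N
    have h8 : mean q N ≤ |c₀| * ((N : ℝ) ^ (1 / 2 : ℝ) * Real.log N) :=
      (h₀ N hN).trans (mul_le_mul (le_abs_self _) (mul_le_mul_of_nonneg_right
        (Real.rpow_le_rpow_of_exponent_le hN' (min_le_left _ _)) l0) (by positivity)
        (abs_nonneg _))
    refine le_of_mul_le_mul_left (((h6 N le_rfl).trans (mul_le_mul (le_abs_self c)
      (mul_le_mul_of_nonneg_right h8 (by positivity))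
      (mul_nonneg (Two.mean_nonneg N) (by positivity)) (abs_nonneg c))).trans ?_)
      (by linarith : (0 : ℝ) < N)
    refine le_trans (le_of_eq (by ring)) ((mul_le_mul_of_nonneg_left h7
      (by positivity : 0 ≤ (N : ℝ) ^ (1 / 2 : ℝ))).trans_eq ?_)
    rw [← Real.rpow_add (by linarith), ← Real.rpow_one_add' (by linarith) (by linarith)]
    congr 1
    ring
  · have hN' : (0 : ℝ) < N := by exact_mod_cast hN
    refine le_of_mul_le_mul_left (le_trans (le_of_eq ?_) (h7.trans h6)) hN'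
    rw [show (1 / 2 - ε : ℝ) = -(1 / 2) - ε + 1 by ring, Real.rpow_add_one hN'.ne', mul_comm]
  · filter_upwards [Half.ev_le_div hc₃ hc₂ hε (3 * l) h5, eventually_ge_atTop 2] with M h6 hM
    obtain ⟨N, hN, h7⟩ := h4 M hM
    exact ⟨N, hN, h6.trans h7⟩

end Pool.Agent.Results.MP_490b4c_nt.ExactExponent
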