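import Pool.Agent.Lib.MP_490b4c_nt.OneMain

/-!
For one base (`l = 1`, digital sequences over `ZMod q`) the almost sure size of the discrepancy is
given by an integral test: a zero-one law with the exponent `log q / log p`, where `p` is the least
prime factor of `q`.
-/

namespace Pool.Agent.Results.MP_490b4c_nt.OneBaseTest

open MeasureTheory Filter Pool.Agent.Lib.MP_490b4c_nt

theorem result (d q : ℕ) (hd : 1 ≤ d) (hq : 2 ≤ q) (φ : ℝ → ℝ) (hφ : Monotone φ)
    (hpos : ∀ x, 0 < φ x) :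
    (Summable (fun n : ℕ => 1 / φ n) →
      ∀ᵐ C ∂prob (fun _ : Fin 1 => d) (fun _ => q), ∀ ε : ℝ, 0 < ε → ∀ᶠ N : ℕ in atTop,
        disc (pt C) N ≤ ε * ((Real.log N ^ d * φ (Real.log (Real.log N))) ^
          (Real.log q / Real.log q.minFac) / N)) ∧
    (¬ Summable (fun n : ℕ => 1 / φ n) →
      ∀ᵐ C ∂prob (fun _ : Fin 1 => d) (fun _ => q), ∀ c : ℝ, ∃ᶠ N : ℕ in atTop,
        c * ((Real.log N ^ d * φ (Real.log (Real.log N))) ^
          (Real.log q / Real.log q.minFac) / N) < disc (pt C) N) := by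
  have : NeZero q := ⟨by omega⟩
  have : Nonempty (Coord fun _ : Fin 1 => d) := ⟨⟨0, ⟨0, hd⟩⟩⟩
  have hD : Fintype.card (Coord fun _ : Fin 1 => d) = d := by simp
  have hz : ∀ᵐ C ∂prob (fun _ : Fin 1 => d) (fun _ => q), ∀ n k a, pt (q := fun _ => q) C n k ∈
      Set.Ico (pre (One.yd (B := q) C n k) a / (q : ℝ) ^ a)
        ((pre (One.yd (B := q) C n k) a + 1) / (q : ℝ) ^ a) := by
    filter_upwards [ae_digits (d := fun _ : Fin 1 => d) (q := fun _ => q)] with C h n k a
    exact mem_pre (y := One.yd (B := q) C n k) hq (h n k) a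
  refine ⟨fun hs => ?_, fun hs => ?_⟩
  · filter_upwards [One.upper (B := q) (P := prob (fun _ : Fin 1 => d) (fun _ => q)) hq hφ hpos hs hz]
      with C h ε hε
    filter_upwards [h ε hε, eventually_gt_atTop 0] with N h1 hN
    rwa [hD, ← le_div_iff₀' (Nat.cast_pos.2 hN), mul_div_assoc] at h1
  · filter_upwards [One.lower (B := q) (P := prob (fun _ : Fin 1 => d) (fun _ => q)) hq hφ hpos hs hz]
      with C h c
    refine ((h c).and_eventually (eventually_gt_atTop 0)).mono fun N ⟨h1, hN⟩ => ?_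
    rwa [hD, ← div_lt_iff₀' (Nat.cast_pos.2 hN), mul_div_assoc] at h1

end Pool.Agent.Results.MP_490b4c_nt.OneBaseTest
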