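import Pool.Agent.Lib.MP_490b4c_nt.TwoUp

/-!
For prime bases the almost sure order of the discrepancy of Halton-Niederreiter sequences is
`mean q N / N` up to powers of `log N`.
-/

namespace Pool.Agent.Results.MP_490b4c_nt.OrderUpToLogs

open MeasureTheory Filter Pool.Agent.Lib.MP_490b4c_nt

theorem result (l : ℕ) (hl : 1 ≤ l) (d q : Fin l → ℕ) (hd : ∀ i, 1 ≤ d i)
    [∀ i, Fact (q i).Prime] : ∀ᵐ C ∂prob d q, ∃ c c' : ℝ, 0 < c' ∧
      (∀ᶠ M : ℕ in atTop,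
        (∀ N ≤ M, N * disc (pt C) N ≤ c * (mean q M * Real.log M ^ (∑ i, d i + 3))) ∧
        ∃ N ≤ M, c' * (mean q M / Real.log M ^ (3 * l)) ≤ N * disc (pt C) N) ∧
      ∃ᶠ N : ℕ in atTop, c' * (mean q N / Real.log N ^ l) ≤ N * disc (pt C) N := by
  filter_upwards [Two.upper (q := q) hl hd, Two.lower (q := q) hl hd, Two.lower' (q := q) hl hd]
    with C ⟨c, h1⟩ ⟨c₁, hc₁, h2⟩ ⟨c₂, hc₂, h3⟩
  have h0 : ∀ M k : ℕ, 0 ≤ mean q M / Real.log M ^ k := fun M k =>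
    div_nonneg (Two.mean_nonneg M) (pow_nonneg (Real.log_natCast_nonneg M) k)
  refine ⟨c, min c₁ c₂, lt_min hc₁ hc₂, ?_, h2.mono fun N h =>
    (mul_le_mul_of_nonneg_right (min_le_left _ _) (h0 _ _)).trans h⟩
  filter_upwards [h1, eventually_ge_atTop 2] with M h hM
  rw [show Fintype.card (Coord d) = ∑ i, d i by simp] at h
  obtain ⟨N, hN, h4⟩ := h3 M hM
  exact ⟨h, N, hN, (mul_le_mul_of_nonneg_right (min_le_right _ _) (h0 _ _)).trans h4⟩

end Pool.Agent.Results.MP_490b4c_nt.OrderUpToLogs
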