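import Pool.Agent.Lib.MP_490b4c_nt.Main

/-!
For at least two bases, almost all Halton-Niederreiter sequences have discrepancy at least
`N ^ (δ - 1)` infinitely often, for an explicit `δ > 0`.
-/

namespace Pool.Agent.Results.MP_490b4c_nt.PolynomialLower

open MeasureTheory Filter Pool.Agent.Lib.MP_490b4c_nt

theorem result (l : ℕ) (hl : 2 ≤ l) (d q : Fin l → ℕ) (hd : ∀ i, 1 ≤ d i) (hq : ∀ i, 2 ≤ q i)
    (hco : ∀ i j, i ≠ j → (q i).Coprime (q j)) (j : Fin l) :
    0 < expo (q j) ∧ (q j = 2 → 1 / 8 ≤ expo (q j)) ∧ ∀ δ : ℝ, δ < expo (q j) →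
      ∀ᵐ C ∂prob d q, ∀ c : ℝ, ∃ᶠ N : ℕ in atTop, c * (N : ℝ) ^ (δ - 1) < disc (pt C) N := by
  have : ∀ i, NeZero (q i) := fun i => ⟨by have := hq i; omega⟩
  have h0 : 0 < expo (q j) := by
    have h1 : 0 < Real.log (q j).minFac := Real.log_pos (by
      exact_mod_cast (Nat.minFac_prime (by have := hq j; omega)).one_lt)
    have h2 : 0 < Real.log (q j) := Real.log_pos (by exact_mod_cast hq j)
    rw [expo_eq]
    exact div_pos (phi_pos (hq j) (div_pos h1 h2)) (by positivity)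
  have : Nontrivial (Fin l) := Fin.nontrivial_iff_two_le.2 hl
  obtain ⟨i, hi⟩ := exists_ne j
  refine ⟨h0, fun h => ?_, fun δ hδ => main hq (k := ⟨i, ⟨0, hd i⟩⟩) (k' := ⟨j, ⟨0, hd j⟩⟩)
    (fun h => hi (congrArg Sigma.fst h)) (hco i j hi) hδ h0⟩
  have h1 := Real.log_pos one_lt_two
  have h2 := phi_two
  rw [h, expo_eq, Nat.minFac_two, Nat.cast_ofNat, div_self h1.ne', le_div_iff₀ (by positivity)]
  linarith

end Pool.Agent.Results.MP_490b4c_nt.PolynomialLower
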